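import Pool.Agent.H63.SLB.Conv

/-!
A starshaped box with first-eigenvalue minimizers that are not starshaped.  All definitions are in
`Pool.Agent.H63.SLB.Defs`.
-/

open MeasureTheory SLB

namespace Pool.Agent.Results.MP_36ee72_an.StarshapedBox

/-- **Negative answer to Q2, in dimension three.** In every Euclidean space `E` of dimension three, so
in `ℝ³`, there are a bounded open starshaped box `D` and a volume `0 < A < |D|` such that the problem
`min { λ₁(Ω) : Ω ⊆ D open, |Ω| = A }` has a solution, and no solution agrees, up to a Lebesgue null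
set, with an open starshaped set. -/
theorem result (E : Type) [NormedAddCommGroup E] [InnerProductSpace ℝ E] [FiniteDimensional ℝ E]
    [MeasurableSpace E] [BorelSpace E] (hE : Module.finrank ℝ E = 3) :
    ∃ (D : Set E) (A : ℝ), IsOpen D ∧ Bornology.IsBounded D ∧ IsStarShaped D ∧
      0 < A ∧ ENNReal.ofReal A < volume D ∧ (∃ Ω, Minimizes D A Ω) ∧
      ∀ Ω, Minimizes D A Ω → ¬ ∃ S, IsOpen S ∧ IsStarShaped S ∧ S =ᵐ[volume] Ω :=
  main E hE

end Pool.Agent.Results.MP_36ee72_an.StarshapedBox
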